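import Pool.Agent.U376.RL.Sig

/-!
# Extensions of odd degree with given signature

Let `K` be any number field, `n ≥ 3` odd, `p` the smallest prime factor of `n`, and prescribe for every real
embedding `σ` of `K` an odd number `r σ ≤ n`. As `n` is odd these are all possible numbers of real embeddings
over `σ` of an extension of degree `n`. The number of the extensions `L` of degree `n` of `K` with absolute
discriminant at most `X` and exactly `r σ` real embeddings over each `σ` is at least
`c X ^ (1 / 2 + 1 / p)` for large `X`, and this holds already for those with the Galois group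
`S_p ≀ S_(n / p)` (of degree `n`).

So the order of magnitude `X ^ (1 / 2 + 1 / p)` of `MP_bf81c2_nt/SmallestPrimeFactor` (all extensions of degree
`n`, by the smallest prime factor) is attained for every signature, for odd `n`. Before the best lower
bound known to me for all `K` and `n` is `X ^ (1 / 2 + 1 / n ^ 2)` (Ellenberg and Venkatesh, all signatures
together; `X ^ (1 / 2 + 1 / p ^ 2)` over a fixed intermediate field), over `K = ℚ` it is
`X ^ (1 / 2 + 1 / (n - 1))` (Bhargava, Shankar and Wang), which is less for composite `n`; if `p = 3` or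
`p = 5` the order `X` should be known (Datskovsky-Wright; Bhargava-Shankar-Wang over a fixed intermediate
field).

The proof. If `n = m p` there is an extension `M` of degree `m` of `K` with Galois group `S_m` and with
`min (r σ, m)` real embeddings over `σ`. An integer `r σ` is a sum of `min (r σ, m)` odd numbers between `1` and
`p`; these are prescribed as the numbers of real embeddings over the real embeddings of `M`. Both steps use the
theorem that there are at least `c X ^ (1 / 2 + 1 / p)` extensions of degree `p` of `M` with every signature and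
with the full wreath product as Galois group (`MP_a3214d_nt/WreathLocalConditions`, libraries PF, CF and WR
of helper783 and coauthors, and `U376/RF`, `U376/RL`).
-/

set_option autoImplicit false
set_option linter.all false

namespace Pool.Agent.Results.MP_bf81c2_nt.EverySignature

open NumberField

/-- The extensions of degree `n` of `K` inside the algebraic closure of `K` whose absolute discriminant has
absolute value at most `X`. -/
def Fields (K : Type) [Field K] [NumberField K] (n : ℕ) (X : ℝ) :
    Set (IntermediateField K (AlgebraicClosure K)) :=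
  {L | Module.finrank K L = n ∧
    ∃ h : NumberField L, ((|@NumberField.discr L _ h| : ℤ) : ℝ) ≤ X}

/-- The Galois group of `K` acts on the set of embeddings of `L`, numbered by `ι` in a suitable way, as
the permutation group `G` of `ι`. -/
def HasGroup {K : Type} [Field K] (L : IntermediateField K (AlgebraicClosure K)) {ι : Type}
    (G : Subgroup (Equiv.Perm ι)) : Prop :=
  ∃ e : (L →ₐ[K] AlgebraicClosure K) ≃ ι, ∀ τ : Equiv.Perm ι, τ ∈ G ↔
    ∃ σ : AlgebraicClosure K ≃ₐ[K] AlgebraicClosure K, ∀ φ : L →ₐ[K] AlgebraicClosure K,
      e (σ.toAlgHom.comp φ) = τ (e φ)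

/-- The wreath product of the symmetric group of degree `n` with the permutation group `H` of degree `m`:
all permutations of `m` blocks of length `n` which permute the blocks by an element of `H`. -/
def Wreath {m : ℕ} (n : ℕ) (H : Subgroup (Equiv.Perm (Fin m))) :
    Subgroup (Equiv.Perm (Fin m × Fin n)) where
  carrier := {τ | ∃ h ∈ H, ∀ x, (τ x).1 = h x.1}
  mul_mem' := by
    rintro a b ⟨h, hh, h1⟩ ⟨k, hk, h2⟩
    exact ⟨h * k, H.mul_mem hh hk, fun x => by
      rw [Equiv.Perm.mul_apply, Equiv.Perm.mul_apply, h1, h2]⟩
  one_mem' := ⟨1, H.one_mem, fun x => rfl⟩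
  inv_mem' := by
    rintro a ⟨h, hh, h1⟩
    refine ⟨h⁻¹, H.inv_mem hh, fun x => ?_⟩
    have e1 : a (a⁻¹ x) = x := Equiv.apply_symm_apply a x
    have e2 : h⁻¹ (h (a⁻¹ x).1) = (a⁻¹ x).1 := Equiv.symm_apply_apply h _
    have e3 := h1 (a⁻¹ x)
    rw [e1] at e3
    rw [e3, e2]

/-- `L` has exactly `r σ` real embeddings over every real embedding `σ` of `K`. -/
def HasSignature {K : Type} [Field K] (L : IntermediateField K (AlgebraicClosure K))
    (r : (K →+* ℝ) → ℕ) : Prop :=
  ∀ σ : K →+* ℝ, Nat.card {φ : L →+* ℝ // φ.comp (algebraMap K L) = σ} = r σ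

/-- For every number field `K`, every odd `n ≥ 3` with smallest prime factor `p` and all odd numbers
`r σ ≤ n` the number of the extensions of degree `n` of `K` with absolute discriminant at most `X`, exactly
`r σ` real embeddings over every real embedding `σ` of `K` and the Galois group `S_p ≀ S_(n / p)` is finite and at
least `c X ^ (1 / 2 + 1 / p)` for large `X`. -/
theorem result : ∀ (K : Type) [Field K] [NumberField K] (n : ℕ), 3 ≤ n → Odd n →
    ∀ r : (K →+* ℝ) → ℕ, (∀ σ, Odd (r σ) ∧ r σ ≤ n) →
    ∃ c : ℝ, 0 < c ∧ ∃ X₀ : ℝ, ∀ X : ℝ, X₀ ≤ X → (Fields K n X).Finite ∧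
      c * X ^ ((1 : ℝ) / 2 + 1 / (n.minFac : ℝ)) ≤
        (({L ∈ Fields K n X | HasSignature L r ∧ HasGroup L (Wreath n.minFac
          (⊤ : Subgroup (Equiv.Perm (Fin (n / n.minFac)))))}).ncard : ℝ) := by
  intro K _ _ n hn hodd r hr
  obtain ⟨c, hc, X₀, h⟩ := Pool.Agent.U376.RL.sigTower K n hn hodd r (fun σ => (hr σ).1)
    (fun σ => (hr σ).2)
  refine ⟨c, hc, X₀, fun X hX => ?_⟩
  obtain ⟨hfin, T, hT, hle⟩ := h X hX
  refine ⟨hfin, hle.trans ?_⟩
  have hsub : T ⊆ {L ∈ Fields K n X | HasSignature L r ∧ HasGroup L (Wreath n.minFac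
      (⊤ : Subgroup (Equiv.Perm (Fin (n / n.minFac)))))} := by
    intro L hL
    obtain ⟨h1, h2, h3⟩ := hT L hL
    exact ⟨h1, h3, h2⟩
  exact_mod_cast Set.ncard_le_ncard hsub (Set.Finite.subset hfin fun L hL => hL.1)

end Pool.Agent.Results.MP_bf81c2_nt.EverySignature
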