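import Mathlib
import Pool.Agent.U902.QF.Tr

/-!
# Extensions of even degree `2 m` and their subfields of degree `m`

`K` is a number field. For an extension `M` of degree `m` of `K` let `δ(M) > 0` be the density of its
quadratic extensions: the number of the `L` of degree `2` over `M` with `|disc L| ≤ X` is `~ δ(M) X`.

1. `liminf N_{2m,K}(X) / X ≥ ∑ δ(M)`, the sum over ALL extensions `M` of degree `m` of `K` (the liminf is
infinite if the sum diverges). So if the formula `N_{2m,K}(X) ~ c X` of Q1 holds, the sum over all `M`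
converges, and is at most `c`.

2. Let `S` be a set of extensions of degree `m` of `K` for which `∑ |disc M| ^ (-1/4)` converges. The
number of extensions `L` of degree `2 m` of `K` with `|disc L| ≤ X` which contain some `M` in `S` is
asymptotic to `c X`, `c = ∑ δ(M)`, and all of them except `o(X)` have, over each such `M`, the Galois group
`C₂ ≀ Gal(M)`.

3. Part 2 applies to the set of ALL `M` of degree `m` whose Galois group (acting on the embeddings) is
large, and to all its subsets. For `m = q!`, `q ≥ 6`, this set is not empty, for all `K`.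
-/

set_option autoImplicit false

open Filter

namespace Pool.Agent.Results.MP_bf81c2_nt.QuadraticOverThinFamilies

/-- `N_{n,K}(X)` is the number of elements of this set: the extensions of degree `n` of the number field
`K` inside its algebraic closure whose absolute discriminant has absolute value at most `X`. -/
def Fields (K : Type) [Field K] [NumberField K] (n : ℕ) (X : ℝ) :
    Set (IntermediateField K (AlgebraicClosure K)) :=
  {L | Module.finrank K L = n ∧
    ∃ h : NumberField L, ((|@NumberField.discr L _ h| : ℤ) : ℝ) ≤ X}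

/-- The extensions of degree `m` of `K`. -/
abbrev Deg (K : Type) [Field K] [NumberField K] (m : ℕ) : Type :=
  {M : IntermediateField K (AlgebraicClosure K) // Module.finrank K M = m}

/-- The absolute value of the discriminant (`1` if `M` is not a number field). -/
noncomputable def disc {K : Type} [Field K] (M : IntermediateField K (AlgebraicClosure K)) : ℝ :=
  open Classical in
  if h : NumberField M then ((|@NumberField.discr M _ h| : ℤ) : ℝ) else 1

/-- `Gal(L/K) = C₂ ≀ Gal(M/K)`: the embeddings of `L` can be numbered by the pairs `(φ, b)`, `φ` an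
embedding of `M` and `b ∈ {0, 1}`, such that Galois induces exactly those permutations `π` of the pairs for
which some Galois automorphism `σ` satisfies `π (φ, b) ∈ {σ φ} × {0, 1}` for all `φ`, `b`. -/
def Wreath {K : Type} [Field K] (M L : IntermediateField K (AlgebraicClosure K)) : Prop :=
  ∃ e : (L →ₐ[K] AlgebraicClosure K) ≃ (M →ₐ[K] AlgebraicClosure K) × Bool,
    ∀ π : Equiv.Perm ((M →ₐ[K] AlgebraicClosure K) × Bool),
      (∃ σ : AlgebraicClosure K ≃ₐ[K] AlgebraicClosure K,
        ∀ φ : L →ₐ[K] AlgebraicClosure K, e (σ.toAlgHom.comp φ) = π (e φ)) ↔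
      ∃ σ : AlgebraicClosure K ≃ₐ[K] AlgebraicClosure K,
        ∀ x : (M →ₐ[K] AlgebraicClosure K) × Bool, (π x).1 = σ.toAlgHom.comp x.1

/-- `H ≤ S_m` is transitive and has a subgroup `V` containing no normal subgroup except `1`, of index `q`,
such that `8 q (q + 1) ≤ m` and `V` contains the stabilizer of a point, or
`8 log₂ |H| q (q + 1) ≤ m` (`log₂` rounded down). -/
def Large {m : ℕ} (H : Subgroup (Equiv.Perm (Fin m))) : Prop :=
  (∀ i j : Fin m, ∃ h : H, h • i = j) ∧
  ∃ V : Subgroup H, V.normalCore = ⊥ ∧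
    ((8 * V.index * (V.index + 1) ≤ m ∧ ∃ i : Fin m, MulAction.stabilizer H i ≤ V) ∨
      8 * Nat.log 2 (Nat.card H) * V.index * (V.index + 1) ≤ m)

/-- The extensions `M` of degree `m` of `K` whose Galois group, acting on the embeddings (numbered by
`1, ..., m`), is large. -/
def LargeFields (K : Type) [Field K] [NumberField K] (m : ℕ) :
    Set (IntermediateField K (AlgebraicClosure K)) :=
  {M | Module.finrank K M = m ∧ ∃ H : Subgroup (Equiv.Perm (Fin m)), Large H ∧
    ∃ e : (M →ₐ[K] AlgebraicClosure K) ≃ Fin m, ∀ π : Equiv.Perm (Fin m),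
      π ∈ H ↔ ∃ σ : AlgebraicClosure K ≃ₐ[K] AlgebraicClosure K,
        ∀ φ : M →ₐ[K] AlgebraicClosure K, e (σ.toAlgHom.comp φ) = π (e φ)}

/-- `δ(M)` is the density of the quadratic extensions of `M`, for all `M` of degree `m`. -/
def Density (K : Type) [Field K] [NumberField K] (m : ℕ)
    (δ : IntermediateField K (AlgebraicClosure K) → ℝ) : Prop :=
  ∀ M : IntermediateField K (AlgebraicClosure K), Module.finrank K M = m → 0 < δ M ∧
    Tendsto (fun X : ℝ => (({L ∈ Fields K (2 * m) X | M ≤ L}).ncard : ℝ) / X) atTop (nhds (δ M))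

/-- The sum of `δ(M)` over all extensions `M` of degree `m` converges and is at most `c`. -/
def SumLe (K : Type) [Field K] [NumberField K] (m : ℕ)
    (δ : IntermediateField K (AlgebraicClosure K) → ℝ) (c : ℝ) : Prop :=
  Summable (fun M : Deg K m => δ M.1) ∧ ∑' M : Deg K m, δ M.1 ≤ c

/-- Part 1: all extensions of degree `2 m`. -/
def First (K : Type) [Field K] [NumberField K] (m : ℕ)
    (δ : IntermediateField K (AlgebraicClosure K) → ℝ) : Prop :=
  (∀ c : ℝ, ¬ SumLe K m δ c → ∃ X₀ : ℝ, ∀ X : ℝ, X₀ ≤ X →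
    c * X < ((Fields K (2 * m) X).ncard : ℝ)) ∧
  ∀ c : ℝ, Tendsto (fun X : ℝ => ((Fields K (2 * m) X).ncard : ℝ) / X) atTop (nhds c) →
    SumLe K m δ c

/-- Part 2: thin families. -/
def Second (K : Type) [Field K] [NumberField K] (m : ℕ)
    (δ : IntermediateField K (AlgebraicClosure K) → ℝ) : Prop :=
  ∀ S : Set (IntermediateField K (AlgebraicClosure K)), (∀ M ∈ S, Module.finrank K M = m) →
    Summable (fun M : S => (disc M.1) ^ (-(1 / 4) : ℝ)) →
    Summable (fun M : S => δ M.1) ∧
    Tendsto (fun X : ℝ => (({L ∈ Fields K (2 * m) X | ∃ M ∈ S, M ≤ L}).ncard : ℝ) / X) atTop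
      (nhds (∑' M : S, δ M.1)) ∧
    Tendsto (fun X : ℝ =>
      (({L ∈ Fields K (2 * m) X | ∃ M ∈ S, M ≤ L ∧ ¬ Wreath M L}).ncard : ℝ) / X) atTop (nhds 0)

open Pool.Agent.U902.QF (QA U W NF)

section

variable {K : Type} [Field K] [NumberField K]

theorem disc_eq (M : IntermediateField K (AlgebraicClosure K)) :
    disc M = Pool.Agent.TH444.ML.dsc M := rfl

theorem mem_fields {n : ℕ} (hn : 0 < n) (X : ℝ) : Fields K n X = NF K (AlgebraicClosure K) n X := by
  ext L
  constructor
  · rintro ⟨h1, h2, h3⟩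
    exact ⟨h1, by rw [Pool.Agent.TH444.ML.dsc_eq L]; exact h3⟩
  · rintro ⟨h1, h3⟩
    have hfd : FiniteDimensional K L := FiniteDimensional.of_finrank_pos (by omega)
    have hnf : NumberField L := Pool.Agent.TH444.ML.nf_of_fd L
    rw [Pool.Agent.TH444.ML.dsc_eq L] at h3
    exact ⟨h1, hnf, h3⟩

variable {m : ℕ} (hm : 0 < m)
include hm

theorem over_eq {M : IntermediateField K (AlgebraicClosure K)} (hM : Module.finrank K M = m)
    (X : ℝ) : {L ∈ Fields K (2 * m) X | M ≤ L} = QA M X := by
  rw [mem_fields (by omega)]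
  ext L
  constructor
  · rintro ⟨⟨h1, h2⟩, h3⟩
    exact ⟨h3, by rw [h1, hM], h2⟩
  · rintro ⟨h3, h1, h2⟩
    exact ⟨⟨by rw [h1, hM], h2⟩, h3⟩

theorem union_eq {S : Set (IntermediateField K (AlgebraicClosure K))}
    (hS : ∀ M ∈ S, Module.finrank K M = m) (X : ℝ) :
    {L ∈ Fields K (2 * m) X | ∃ M ∈ S, M ≤ L} = U S X := by
  ext L
  constructor
  · rintro ⟨h1, M, hM, h2⟩
    refine ⟨M, hM, ?_⟩
    rw [← over_eq hm (hS M hM)]
    exact ⟨h1, h2⟩
  · rintro ⟨M, hM, h⟩
    rw [← over_eq hm (hS M hM)] at h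
    exact ⟨h.1, M, hM, h.2⟩

theorem bad_eq {S : Set (IntermediateField K (AlgebraicClosure K))}
    (hS : ∀ M ∈ S, Module.finrank K M = m) (X : ℝ) :
    {L ∈ Fields K (2 * m) X | ∃ M ∈ S, M ≤ L ∧ ¬ Wreath M L} = W S X := by
  ext L
  constructor
  · rintro ⟨h1, M, hM, h2, h3⟩
    refine ⟨M, hM, ?_, h3⟩
    rw [← over_eq hm (hS M hM)]
    exact ⟨h1, h2⟩
  · rintro ⟨M, hM, h, h3⟩
    rw [← over_eq hm (hS M hM)] at h
    exact ⟨h.1, M, hM, h.2, h3⟩

end

theorem exists_density (K : Type) [Field K] [NumberField K] {m : ℕ} (hm : 0 < m) :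
    ∃ δ, Density K m δ := by
  classical
  have h : ∀ M : IntermediateField K (AlgebraicClosure K), ∃ c : ℝ, Module.finrank K M = m →
      0 < c ∧ Tendsto (fun X : ℝ => ((QA M X).ncard : ℝ) / X) atTop (nhds c) := by
    intro M
    by_cases hM : Module.finrank K M = m
    · have := Pool.Agent.U902.QF.fd_of hm hM
      obtain ⟨c, h1, h2⟩ := Pool.Agent.U902.QF.lim_QA M
      exact ⟨c, fun _ => ⟨h1, h2⟩⟩
    · exact ⟨0, fun h => absurd h hM⟩
  choose δ hδ using h
  refine ⟨δ, fun M hM => ⟨(hδ M hM).1, ?_⟩⟩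
  simp only [over_eq hm hM]
  exact (hδ M hM).2

theorem first (K : Type) [Field K] [NumberField K] {m : ℕ} (hm : 0 < m)
    (δ : IntermediateField K (AlgebraicClosure K) → ℝ) (hδ : Density K m δ) : First K m δ := by
  have h1 : ∀ M : IntermediateField K (AlgebraicClosure K), Module.finrank K M = m →
      Tendsto (fun X : ℝ => ((QA M X).ncard : ℝ) / X) atTop (nhds (δ M)) := by
    intro M hM
    have h := (hδ M hM).2
    simp only [over_eq hm hM] at h
    exact h
  constructor
  · intro c hc
    have h2 : ¬ ∃ᶠ X : ℝ in atTop, ((NF K (AlgebraicClosure K) (2 * m) X).ncard : ℝ) ≤ c * X :=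
      fun h => hc (Pool.Agent.U902.QF.total hm δ h1 c h)
    rw [not_frequently] at h2
    obtain ⟨X₀, hX₀⟩ := eventually_atTop.1 h2
    refine ⟨X₀, fun X hX => ?_⟩
    rw [mem_fields (by omega)]
    exact not_le.1 (hX₀ X hX)
  · intro c hc
    have h2 : Tendsto (fun X : ℝ => ((NF K (AlgebraicClosure K) (2 * m) X).ncard : ℝ) / X) atTop
        (nhds c) := by
      refine hc.congr fun X => ?_
      rw [mem_fields (by omega)]
    exact Pool.Agent.U902.QF.total_lim hm δ h1 c h2

theorem second (K : Type) [Field K] [NumberField K] {m : ℕ} (hm : 0 < m)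
    (δ : IntermediateField K (AlgebraicClosure K) → ℝ) (hδ : Density K m δ) : Second K m δ := by
  intro S hS hsum
  have h1 : ∀ M ∈ S, Tendsto (fun X : ℝ => ((QA M X).ncard : ℝ) / X) atTop (nhds (δ M)) := by
    intro M hM
    have h := (hδ M (hS M hM)).2
    simp only [over_eq hm (hS M hM)] at h
    exact h
  obtain ⟨a1, -, a3, a4⟩ := Pool.Agent.U902.QF.fam hm S hS hsum δ h1
  refine ⟨a1, ?_, ?_⟩
  · simp only [union_eq hm hS]
    exact a3
  · simp only [bad_eq hm hS]
    exact a4

theorem large_mem {K : Type} [Field K] [NumberField K] {m : ℕ} (hm : 0 < m)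
    (M : IntermediateField K (AlgebraicClosure K)) : M ∈ LargeFields K m ↔
      ∃ H ∈ {H : Subgroup (Equiv.Perm (Fin m)) | Large H},
        M ∈ Pool.Agent.U737.MN.Gal K (AlgebraicClosure K) H (Fin m) := by
  have key : ∀ (H : Subgroup (Equiv.Perm (Fin m))) (π : Equiv.Perm (Fin m)),
      (∃ h : H, ∀ x, π x = h • x) ↔ π ∈ H := by
    intro H π
    constructor
    · rintro ⟨h, hh⟩
      have : π = h.1 := Equiv.ext fun x => hh x
      rw [this]
      exact h.2
    · intro h
      exact ⟨⟨π, h⟩, fun x => rfl⟩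
  constructor
  · rintro ⟨h1, H, h2, e, he⟩
    exact ⟨H, h2, Pool.Agent.U902.QF.fd_of hm h1, e, fun π => (key H π).trans (he π)⟩
  · rintro ⟨H, h2, hfd, e, he⟩
    refine ⟨?_, H, h2, e, fun π => (key H π).symm.trans (he π)⟩
    rw [← AlgHom.card K M (AlgebraicClosure K), ← Nat.card_eq_fintype_card, Nat.card_congr e,
      Nat.card_fin]

theorem large_summable (K : Type) [Field K] [NumberField K] {m : ℕ} (hm : 0 < m) :
    Summable (fun M : LargeFields K m => (disc M.1) ^ (-(1 / 4) : ℝ)) := by
  have h := Pool.Agent.U902.QF.large_sum K hm {H : Subgroup (Equiv.Perm (Fin m)) | Large H} (by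
    rintro H ⟨h1, V, h2, h3⟩
    refine ⟨⟨h1⟩, V, h2, ?_⟩
    rw [Nat.card_fin]
    exact h3)
  have he : LargeFields K m = {M : IntermediateField K (AlgebraicClosure K) |
      ∃ H ∈ {H : Subgroup (Equiv.Perm (Fin m)) | Large H},
        M ∈ Pool.Agent.U737.MN.Gal K (AlgebraicClosure K) H (Fin m)} := by
    ext M
    exact large_mem hm M
  rw [he]
  exact h

theorem large_nonempty (K : Type) [Field K] [NumberField K] {q : ℕ} (hq : 6 ≤ q) :
    (LargeFields K q.factorial).Nonempty := by
  obtain ⟨H, h1, ⟨V, h2, h3⟩, M, hM⟩ := Pool.Agent.U902.QF.sym_gal K hq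
  refine ⟨M, (large_mem (Nat.factorial_pos q) M).2 ⟨H, ⟨h1.exists_smul_eq, V, h2, ?_⟩, hM⟩⟩
  rw [Nat.card_fin] at h3
  exact h3

end Pool.Agent.Results.MP_bf81c2_nt.QuadraticOverThinFamilies

open Pool.Agent.Results.MP_bf81c2_nt.QuadraticOverThinFamilies in
/-- For all number fields `K` and `m ≥ 1` the densities `δ(M) > 0` of the quadratic extensions of the
extensions `M` of degree `m` exist, and: (1) `liminf N_{2m,K}(X) / X ≥ ∑ δ(M)`, over all `M`; (2) the number
of extensions of degree `2 m` which contain a field of a thin family is `~ c X`, and almost all of them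
have a wreath product as Galois group; (3) all fields with a large Galois group are a thin family, and so
are all its subsets; it is not empty for `m = q!`, `q ≥ 6`. -/
theorem Pool.Agent.Results.MP_bf81c2_nt.QuadraticOverThinFamilies.result
    (K : Type) [Field K] [NumberField K] :
    (∀ m : ℕ, 0 < m → (∃ δ, Density K m δ) ∧
      (∀ δ, Density K m δ → First K m δ ∧ Second K m δ) ∧
      Summable (fun M : LargeFields K m => (disc M.1) ^ (-(1 / 4) : ℝ))) ∧
    ∀ q : ℕ, 6 ≤ q → (LargeFields K q.factorial).Nonempty :=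
  ⟨fun m hm => ⟨exists_density K hm, fun δ hδ => ⟨first K hm δ hδ, second K hm δ hδ⟩,
    large_summable K hm⟩, fun q hq => large_nonempty K hq⟩
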