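import Pool.Agent.U689.NF.Low
import Pool.Agent.TH444.ML.Done
import Pool.Agent.N783.CF.WRFinal

/-!
# A lower bound for the number of extensions of degree `n`, with the smallest prime factor of `n`

Let `K` be any number field, `n ≥ 2`, and let `p` be the smallest prime factor of `n`. The number
`N_{n,K}(X)` of the extensions of degree `n` of `K` inside an algebraic closure with absolute
discriminant at most `X` is at least `c X ^ (1 / 2 + 1 / p)` for large `X`. So it is at least `c X`, the
conjectured order, for even `n`. More precisely, for every extension `M` of degree `n / p` of `K` there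
are so many extensions `L` of degree `n` of `K` which contain `M`.

(The absolute value of the discriminant of `L` is `|disc K| ^ n` times the norm of the relative
discriminant, so the same holds for the count by the norm of the relative discriminant.)

Known before for general `K` and `n`: exponent `1 / 2 + 1 / n ^ 2` (Ellenberg and Venkatesh), so, applied
to a fixed `M`, exponent `1 / 2 + 1 / p ^ 2`, and the order `X` if `n` is divisible by `2`, `3` or `5`
(Datskovsky-Wright, Bhargava-Shankar-Wang, over a fixed `M`). For `K = ℚ` exponent `1 / 2 + 1 / (n - 1)`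
(Bhargava, Shankar and Wang), which is less than `1 / 2 + 1 / p` if `n` is not prime.

For odd `n` this uses the theorem of the starting library on the extensions of odd degree of a fixed
number field `M` (`MP_af4c59_nt.SymmetricGroupOddDegree`, `MP_a3214d_nt.WreathSymmetricLowerBound`), for
even `n` the asymptotic formula of the library for the quadratic extensions of a fixed number field.
-/

set_option autoImplicit false

namespace Pool.Agent.Results.MP_bf81c2_nt.SmallestPrimeFactor

/-- `N_{n,K}(X)` is the number of elements of this set: the extensions of degree `n` of the number field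
`K` inside its algebraic closure whose absolute discriminant has absolute value at most `X`. -/
def Fields (K : Type) [Field K] [NumberField K] (n : ℕ) (X : ℝ) :
    Set (IntermediateField K (AlgebraicClosure K)) :=
  {L | Module.finrank K L = n ∧
    ∃ h : NumberField L, ((|@NumberField.discr L _ h| : ℤ) : ℝ) ≤ X}

/-- For every number field `K` and every `n ≥ 2`, with smallest prime factor `p`: the sets
`Fields K n X` are finite, `N_{n,K}(X) ≥ c X ^ (1 / 2 + 1 / p)` for large `X`, for some `c > 0`, and for
every extension `M` of degree `n / p` of `K` inside the algebraic closure this is already true (with `c`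
depending on `M`) for the number of the fields which contain `M`. -/
theorem result (K : Type) [Field K] [NumberField K] (n : ℕ) (hn : 2 ≤ n) :
    (∀ X : ℝ, (Fields K n X).Finite) ∧
    (∃ c : ℝ, 0 < c ∧ ∃ X₀ : ℝ, ∀ X : ℝ, X₀ ≤ X →
      c * X ^ ((1 : ℝ) / 2 + 1 / (n.minFac : ℝ)) ≤ ((Fields K n X).ncard : ℝ)) ∧
    ∀ M : IntermediateField K (AlgebraicClosure K), Module.finrank K M * n.minFac = n →
      ∃ c : ℝ, 0 < c ∧ ∃ X₀ : ℝ, ∀ X : ℝ, X₀ ≤ X →
        c * X ^ ((1 : ℝ) / 2 + 1 / (n.minFac : ℝ)) ≤ (({L ∈ Fields K n X | M ≤ L}).ncard : ℝ) := by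
  have hp : n.minFac.Prime := Nat.minFac_prime (by omega)
  have hfin1 : ∀ X : ℝ, 1 ≤ X → (Fields K n X).Finite :=
    fun X hX => Pool.Agent.N783.CF.finf K n X hn hX
  have hfin : ∀ X : ℝ, (Fields K n X).Finite := by
    intro X
    refine (hfin1 (max X 1) (le_max_right _ _)).subset ?_
    rintro L ⟨h1, h2, h3⟩
    exact ⟨h1, h2, h3.trans (le_max_left _ _)⟩
  have hM : ∀ M : IntermediateField K (AlgebraicClosure K), Module.finrank K M * n.minFac = n →
      ∃ c : ℝ, 0 < c ∧ ∃ X₀ : ℝ, ∀ X : ℝ, X₀ ≤ X →
        c * X ^ ((1 : ℝ) / 2 + 1 / (n.minFac : ℝ)) ≤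
          (({L ∈ Fields K n X | M ≤ L}).ncard : ℝ) := by
    intro M hMn
    have hpos : 0 < Module.finrank K M := by
      rcases Nat.eq_zero_or_pos (Module.finrank K M) with h | h
      · rw [h] at hMn
        omega
      · exact h
    have : FiniteDimensional K M := Module.finite_of_finrank_pos hpos
    have : NumberField M := NumberField.of_module_finite K M
    rcases hp.eq_two_or_odd' with h2 | h2
    · rw [h2] at hMn ⊢
      obtain ⟨c, hc, X₀, h⟩ := Pool.Agent.U689.NF.quad_low
        (Pool.Agent.TH444.ML.quadLim Pool.Agent.TH444.ML.rest) Pool.Agent.TH444.ML.quadPos K M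
        (by rw [hMn]; exact hfin)
      refine ⟨c, hc, X₀, fun X hX => ?_⟩
      have h3 := h X hX
      rw [hMn] at h3
      have h4 : ((1 : ℝ) / 2 + 1 / ((2 : ℕ) : ℝ)) = 1 := by norm_num
      rw [h4, Real.rpow_one]
      exact h3
    · obtain ⟨g, hg⟩ := h2
      have hg1 : 1 ≤ g := by
        have := hp.two_le
        omega
      obtain ⟨c, hc, X₀, h⟩ := Pool.Agent.N783.CF.wreathFields g K M hg1
      refine ⟨c, hc, X₀, fun X hX => ?_⟩
      obtain ⟨-, T, hT1, hT2, hT3⟩ := h X hX
      rw [← hg, hMn] at hT1
      rw [hg]
      refine hT3.trans ?_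
      have hsub : T ⊆ {L ∈ Fields K n X | M ≤ L} := fun L hL => ⟨hT1 hL, (hT2 L hL).1⟩
      exact_mod_cast Set.ncard_le_ncard hsub ((hfin X).subset fun L hL => hL.1)
  refine ⟨hfin, ?_, hM⟩
  obtain ⟨M, hMk⟩ := Pool.Agent.U689.NF.exists_degree K (n / n.minFac)
    (Nat.div_pos (Nat.minFac_le (by omega)) hp.pos)
  obtain ⟨c, hc, X₀, h⟩ := hM M (by rw [hMk]; exact Nat.div_mul_cancel (Nat.minFac_dvd n))
  refine ⟨c, hc, X₀, fun X hX => (h X hX).trans ?_⟩
  have hsub : {L ∈ Fields K n X | M ≤ L} ⊆ Fields K n X := fun L hL => hL.1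
  exact_mod_cast Set.ncard_le_ncard hsub (hfin X)

end Pool.Agent.Results.MP_bf81c2_nt.SmallestPrimeFactor
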